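import Pool.Agent.Q70.PaF

set_option autoImplicit false

namespace Pool.Agent.Results.MP_b9874d_an.PropertyANotUFrequent

open Filter Topology Set

/-- Upper density `limsup_N |A ∩ {1,...,N}| / N`. -/
noncomputable def upperDensity (A : Set ℕ) : ℝ :=
  limsup (fun N : ℕ => ((A ∩ Icc 1 N).ncard : ℝ) / N) atTop

variable {X : Type} [NormedAddCommGroup X] [NormedSpace ℂ X]

/-- Property `𝒜`: every non-empty open set is visited with positive upper density by some orbit. -/
def PropertyA (T : X →L[ℂ] X) : Prop :=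
  ∀ U : Set X, IsOpen U → U.Nonempty → ∃ x : X, 0 < upperDensity {n : ℕ | (T ^ n) x ∈ U}

/-- `x` is a `U`-frequently recurrent vector of `T`. -/
def IsUFRecVector (T : X →L[ℂ] X) (x : X) : Prop :=
  ∀ V : Set X, IsOpen V → x ∈ V → 0 < upperDensity {n : ℕ | (T ^ n) x ∈ V}

/-- `T` is `U`-frequently recurrent: its `U`-frequently recurrent vectors are dense. -/
def UFrequentlyRecurrent (T : X →L[ℂ] X) : Prop := Dense {x : X | IsUFRecVector T x}

/-- There is a bounded operator on the complex Banach space `c₀(ℕ × ℕ)` (that is, on `c₀`) with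
property `𝒜` that has no `U`-frequently recurrent vector in some non-empty open set; in particular
it is not `U`-frequently recurrent. -/
theorem result :
    ∃ T : ZeroAtInftyContinuousMap (ℕ × ℕ) ℂ →L[ℂ] ZeroAtInftyContinuousMap (ℕ × ℕ) ℂ,
      PropertyA T ∧ ¬ UFrequentlyRecurrent T ∧
      ∃ V : Set (ZeroAtInftyContinuousMap (ℕ × ℕ) ℂ), IsOpen V ∧ V.Nonempty ∧
        ∀ x ∈ V, ¬ IsUFRecVector T x := by
  obtain ⟨P⟩ := Q70.Pa.exists_par
  have hA : PropertyA (Q70.Pa.T P) := by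
    intro U hU hne
    exact Q70.Pa.propA P U hU hne
  have hV : ∀ x ∈ Metric.ball ((2 : ℂ) • Q70.Pa.e (0, 0)) 1,
      ¬ IsUFRecVector (Q70.Pa.T P) x := by
    intro x hx hrec
    rw [Metric.mem_ball, dist_eq_norm] at hx
    apply Q70.Pa.no_ufrec P hx
    intro ε hε
    have h1 := hrec (Metric.ball x ε) Metric.isOpen_ball (Metric.mem_ball_self hε)
    have h2 : {n : ℕ | (Q70.Pa.T P ^ n) x ∈ Metric.ball x ε} =
        {m : ℕ | ‖(Q70.Pa.T P ^ m) x - x‖ < ε} := by
      ext m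
      change (Q70.Pa.T P ^ m) x ∈ Metric.ball x ε ↔ ‖(Q70.Pa.T P ^ m) x - x‖ < ε
      rw [Metric.mem_ball, dist_eq_norm]
    rw [h2] at h1
    exact h1
  refine ⟨Q70.Pa.T P, hA, ?_, _, Metric.isOpen_ball,
    ⟨_, Metric.mem_ball_self one_pos⟩, hV⟩
  intro hd
  obtain ⟨x, hx1, hx2⟩ := hd.exists_mem_open (Metric.isOpen_ball
    (x := (2 : ℂ) • Q70.Pa.e (0, 0)) (ε := 1)) ⟨_, Metric.mem_ball_self one_pos⟩
  exact hV x hx2 hx1

end Pool.Agent.Results.MP_b9874d_an.PropertyANotUFrequent
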